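import Mathlib

namespace Pool.Agent.Results.MP_4640da_an.Yes

open Finset ComplexConjugate

/-- positive definite functions on a group. -/
def PosDef {G : Type} [Group G] (φ : G → ℂ) : Prop :=
  ∀ (n : ℕ) (g : Fin n → G) (c : Fin n → ℂ),
    0 ≤ (∑ i, ∑ j, c i * conj (c j) * φ ((g j)⁻¹ * g i)).re ∧
      (∑ i, ∑ j, c i * conj (c j) * φ ((g j)⁻¹ * g i)).im = 0

/-- normalized positive definite functions invariant under all automorphisms. -/
def P1Aut (G : Type) [Group G] : Set (G → ℂ) :=
  {φ | PosDef φ ∧ φ 1 = 1 ∧ ∀ (α : MulAut G) (g : G), φ (α g) = φ g}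

section PD
variable {G : Type} [Group G] {φ : G → ℂ}

theorem herm (h : PosDef φ) (h1 : φ 1 = 1) (g : G) : φ g⁻¹ = conj (φ g) := by
  have a := (h 2 ![1, g] ![1, 1]).2
  have b := (h 2 ![1, g] ![1, Complex.I]).2
  simp [Fin.sum_univ_two, h1] at a b
  apply Complex.ext <;> simp <;> linarith

theorem re_le (h : PosDef φ) (h1 : φ 1 = 1) (g : G) : (φ g).re ≤ 1 := by
  have a := (h 2 ![1, g] ![1, -1]).1
  simp [Fin.sum_univ_two, h1, herm h h1] at a
  linarith

theorem shift (h : PosDef φ) (h1 : φ 1 = 1) (k : G) (hk : (φ k).re = 1) (g : G) :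
    φ (g * k) = φ g := by
  have key : ∀ s : ℝ, 0 ≤ 1 - 2 * s * Complex.normSq (φ (g * k) - φ g) := by
    intro s
    have a := (h 3 ![k, 1, g⁻¹] ![-s * conj (φ (g * k) - φ g), s * conj (φ (g * k) - φ g), 1]).1
    have e : φ (k⁻¹ * g⁻¹) = conj (φ (g * k)) := by rw [← mul_inv_rev, herm h h1]
    simp [Fin.sum_univ_three, h1, herm h h1, e, hk] at a
    rw [Complex.normSq_apply]
    simp only [Complex.sub_re, Complex.sub_im]
    nlinarith [a]
  by_contra hne
  have hp : 0 < Complex.normSq (φ (g * k) - φ g) := Complex.normSq_pos.2 (sub_ne_zero.2 hne)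
  have := key (1 / Complex.normSq (φ (g * k) - φ g))
  rw [mul_assoc, one_div_mul_cancel hp.ne'] at this
  norm_num at this

end PD

abbrev V (r : ℕ) := Fin r → ZMod 2

def p (r : ℕ) : FreeGroup (Fin r) →* Multiplicative (V r) :=
  FreeGroup.lift fun i => Multiplicative.ofAdd (Pi.single i 1)

noncomputable def sec {r : ℕ} (v : V r) : FreeGroup (Fin r) :=
  ((univ.filter fun j => v j = 1).toList.map FreeGroup.of).prod

theorem p_sec {r : ℕ} (v : V r) : p r (sec v) = Multiplicative.ofAdd v := by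
  unfold sec
  rw [map_list_prod, List.map_map, Finset.prod_map_toList]
  simp only [Function.comp, p, FreeGroup.lift_apply_of]
  rw [← ofAdd_sum]
  congr 1
  ext j
  rw [Finset.sum_apply]
  simp only [Pi.single_apply, Finset.sum_ite_eq, Finset.mem_filter, Finset.mem_univ, true_and]
  have : ∀ x : ZMod 2, (if x = 1 then (1 : ZMod 2) else 0) = x := by decide
  exact this _

theorem ker_le {r : ℕ} (q : FreeGroup (Fin r) →* Multiplicative (V r)) (g : FreeGroup (Fin r))
    (hg : p r g = 1) : q g = 1 := by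
  let L : V r →+ V r :=
    { toFun := fun v => ∑ j, v j • Multiplicative.toAdd (q (FreeGroup.of j))
      map_zero' := by simp
      map_add' := by intro a b; simp [add_smul, Finset.sum_add_distrib] }
  have e : q = (AddMonoidHom.toMultiplicative L).comp (p r) := by
    apply FreeGroup.ext_hom
    intro i
    simp [L, p, Pi.single_apply]
  rw [e, MonoidHom.comp_apply, hg, map_one]

theorem fix_sec {r : ℕ} (f : FreeGroup (Fin r) →* FreeGroup (Fin r)) (v : V r)
    (hf : ∀ j, v j = 1 → f (FreeGroup.of j) = FreeGroup.of j) : f (sec v) = sec v := by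
  unfold sec
  rw [map_list_prod, List.map_map]
  congr 1
  apply List.map_congr_left
  intro j hj
  simp only [Finset.mem_toList, Finset.mem_filter, Finset.mem_univ, true_and] at hj
  exact hf j hj

theorem trans {r : ℕ} (v : V r) (hv : v ≠ 0) (z : Fin r) :
    ∃ α : MulAut (FreeGroup (Fin r)), p r (α (FreeGroup.of z)) = Multiplicative.ofAdd v := by
  obtain ⟨i, hi⟩ := Function.ne_iff.1 hv
  have h2 : ∀ x : ZMod 2, x ≠ 0 → x = 1 := by decide
  have hi1 : v i = 1 := h2 _ hi
  set w := sec (v - Pi.single i 1) with hw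
  let a : FreeGroup (Fin r) →* FreeGroup (Fin r) :=
    FreeGroup.lift fun j => if j = i then FreeGroup.of i * w else FreeGroup.of j
  let b : FreeGroup (Fin r) →* FreeGroup (Fin r) :=
    FreeGroup.lift fun j => if j = i then FreeGroup.of i * w⁻¹ else FreeGroup.of j
  have hne : ∀ j, (v - Pi.single i 1 : V r) j = 1 → j ≠ i := by
    rintro j hj rfl
    simp [hi1] at hj
  have aw : a w = w := fix_sec a _ fun j hj => by simp [a, hne j hj]
  have bw : b w = w := fix_sec b _ fun j hj => by simp [b, hne j hj]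
  have ai : a (FreeGroup.of i) = FreeGroup.of i * w := by simp [a]
  have bi : b (FreeGroup.of i) = FreeGroup.of i * w⁻¹ := by simp [b]
  have ab : a.comp b = MonoidHom.id _ := by
    apply FreeGroup.ext_hom
    intro j
    by_cases h : j = i
    · subst h; rw [MonoidHom.comp_apply, bi, map_mul, map_inv, ai, aw]; simp
    · simp [a, b, h]
  have ba : b.comp a = MonoidHom.id _ := by
    apply FreeGroup.ext_hom
    intro j
    by_cases h : j = i
    · subst h; rw [MonoidHom.comp_apply, ai, map_mul, bi, bw]; simp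
    · simp [a, b, h]
  refine ⟨(FreeGroup.freeGroupCongr (Equiv.swap z i)).trans (MonoidHom.toMulEquiv a b ba ab), ?_⟩
  have : ((FreeGroup.freeGroupCongr (Equiv.swap z i)).trans (MonoidHom.toMulEquiv a b ba ab))
      (FreeGroup.of z) = FreeGroup.of i * w := by
    rw [← ai]; simp
  rw [this, map_mul, hw, p_sec]
  simp only [p, FreeGroup.lift_apply_of]
  rw [← ofAdd_add]; simp

open Classical in
noncomputable def tau (r : ℕ) (g : FreeGroup (Fin r)) : ℂ :=
  if p r g = 1 then 1 else ((-(1 / ((2 : ℝ) ^ r - 1)) : ℝ) : ℂ)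

theorem tau_mem (r : ℕ) (hr : 2 ≤ r) : tau r ∈ P1Aut (FreeGroup (Fin r)) := by
  classical
  have hN : (1 : ℝ) < 2 ^ r := one_lt_pow₀ (by norm_num) (by omega)
  refine ⟨?_, by simp [tau], ?_⟩
  · intro n g c
    set C : Multiplicative (V r) → ℂ := fun u => ∑ i, if p r (g i) = u then c i else 0 with hC
    have e1 : ∑ u, C u * conj (C u) =
        ∑ i, ∑ j, if p r (g j) = p r (g i) then c i * conj (c j) else 0 := by
      simp only [hC, map_sum, Finset.sum_mul_sum]
      rw [Finset.sum_comm]
      refine Finset.sum_congr rfl fun i _ => ?_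
      rw [Finset.sum_comm]
      refine Finset.sum_congr rfl fun j _ => ?_
      rw [Finset.sum_eq_single (p r (g i))]
      · by_cases h : p r (g j) = p r (g i) <;> simp [h]
      · intro u _ hu; simp [Ne.symm hu]
      · simp
    have e2 : ∑ u, C u = ∑ i, c i := by
      simp only [hC]; rw [Finset.sum_comm]; simp
    set b : ℝ := 1 / ((2 : ℝ) ^ r - 1) with hb
    have e3 : ∑ i, ∑ j, c i * conj (c j) * tau r ((g j)⁻¹ * g i) =
        (((1 + b) * ∑ u, ‖C u‖ ^ 2 - b * ‖∑ u, C u‖ ^ 2 : ℝ) : ℂ) := by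
      push_cast
      simp only [← Complex.mul_conj']
      rw [e1, e2, map_sum, Finset.sum_mul_sum, Finset.mul_sum, Finset.mul_sum,
        ← Finset.sum_sub_distrib]
      refine Finset.sum_congr rfl fun i _ => ?_
      rw [Finset.mul_sum, Finset.mul_sum, ← Finset.sum_sub_distrib]
      refine Finset.sum_congr rfl fun j _ => ?_
      unfold tau
      rw [map_mul, map_inv, ← hb]
      simp only [inv_mul_eq_one]
      split_ifs
      · ring
      · push_cast; ring
    rw [e3, Complex.ofReal_re, Complex.ofReal_im]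
    refine ⟨?_, rfl⟩
    have h1 : ‖∑ u, C u‖ ^ 2 ≤ (∑ u, ‖C u‖) ^ 2 :=
      pow_le_pow_left₀ (norm_nonneg _) (norm_sum_le _ _) 2
    have h2 := sq_sum_le_card_mul_sum_sq (s := (univ : Finset (Multiplicative (V r))))
      (f := fun u => ‖C u‖)
    have h3 : ((univ : Finset (Multiplicative (V r))).card : ℝ) = 2 ^ r := by simp
    rw [h3] at h2
    have hb0 : 0 < b := by rw [hb]; apply one_div_pos.2; linarith
    have hb1 : 1 + b = b * 2 ^ r := by
      have : (2 : ℝ) ^ r - 1 ≠ 0 := by linarith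
      rw [hb]; field_simp; ring
    rw [hb1]
    nlinarith
  · intro α g
    have : p r (α g) = 1 ↔ p r g = 1 := by
      constructor
      · intro h
        simpa using ker_le ((p r).comp α.symm.toMonoidHom) _ h
      · intro h
        simpa using ker_le ((p r).comp α.toMonoidHom) _ h
    simp only [tau, this]

theorem struct {r : ℕ} (z : Fin r) (φ : FreeGroup (Fin r) → ℂ) (hφ : φ ∈ P1Aut (FreeGroup (Fin r)))
    (hk : ∀ k, p r k = 1 → (φ k).re = 1) :
    (∀ g, φ g = if p r g = 1 then 1 else φ (FreeGroup.of z)) ∧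
      0 ≤ 1 + ((2 : ℝ) ^ r - 1) * (φ (FreeGroup.of z)).re ∧ (φ (FreeGroup.of z)).im = 0 := by
  obtain ⟨h, h1, hinv⟩ := hφ
  have fac : ∀ g g', p r g = p r g' → φ g' = φ g := by
    intro g g' e
    have := shift h h1 (g⁻¹ * g') (hk _ (by simp [e])) g
    simpa using this
  have A : ∀ g, φ g = if p r g = 1 then 1 else φ (FreeGroup.of z) := by
    intro g
    split_ifs with hg
    · rw [← h1]; exact fac 1 g (by simp [hg])
    · obtain ⟨α, hα⟩ := trans (Multiplicative.toAdd (p r g)) (by simpa using hg) z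
      rw [← hinv α (FreeGroup.of z)]
      exact fac _ _ (by simpa using hα)
  refine ⟨A, ?_, ?_⟩
  · let e := Fintype.equivFin (V r)
    have a := (h _ (fun i => sec (e.symm i)) (fun _ => 1)).1
    have b : ∀ i j, φ ((sec (e.symm j))⁻¹ * sec (e.symm i)) =
        φ (FreeGroup.of z) + if j = i then 1 - φ (FreeGroup.of z) else 0 := by
      intro i j
      rw [A, map_mul, map_inv, p_sec, p_sec]
      simp only [inv_mul_eq_one, EmbeddingLike.apply_eq_iff_eq]
      split_ifs <;> ring
    simp only [b, map_one, one_mul, Finset.sum_add_distrib, Finset.sum_ite_eq', Finset.mem_univ,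
      if_true, Finset.sum_const, Finset.card_univ, Fintype.card_fin, nsmul_eq_mul] at a
    have c : (Fintype.card (V r) : ℂ) = ((2 ^ r : ℝ) : ℂ) := by simp
    rw [c] at a
    simp only [Complex.add_re, Complex.re_ofReal_mul, Complex.sub_re, Complex.one_re] at a
    have hN : (0 : ℝ) < 2 ^ r := by positivity
    by_contra hneg
    push_neg at hneg
    nlinarith [mul_pos hN (neg_pos.2 hneg)]
  · have a := herm h h1 (FreeGroup.of z)
    have b := fac (FreeGroup.of z) (FreeGroup.of z)⁻¹ (by
      rw [map_inv, eq_inv_iff_mul_eq_one]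
      simp only [p, FreeGroup.lift_apply_of]
      rw [← ofAdd_add, ← Pi.single_add]
      have : (1 : ZMod 2) + 1 = 0 := by decide
      simp [this])
    rw [b] at a
    exact Complex.conj_eq_iff_im.1 a.symm

theorem result (r : ℕ) (hr : 2 ≤ r) :
    ∃ τ ∈ Set.extremePoints ℝ (P1Aut (FreeGroup (Fin r))),
      τ ≠ (fun _ => 1) ∧ τ (FreeGroup.of ⟨0, by omega⟩) ≠ 0 := by
  have hN : (1 : ℝ) < 2 ^ r := one_lt_pow₀ (by norm_num) (by omega)
  set z : Fin r := ⟨0, by omega⟩
  have hz : p r (FreeGroup.of z) ≠ 1 := by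
    simp only [p, FreeGroup.lift_apply_of]
    intro h
    have := congrFun (congrArg Multiplicative.toAdd h) z
    simp at this
  have hb : 0 < 1 / ((2 : ℝ) ^ r - 1) := by apply one_div_pos.2; linarith
  have tz : tau r (FreeGroup.of z) = ((-(1 / ((2 : ℝ) ^ r - 1)) : ℝ) : ℂ) := by
    unfold tau; rw [if_neg hz]
  refine ⟨tau r, ⟨tau_mem r hr, ?_⟩, ?_, ?_⟩
  · rintro φ hφ ψ hψ ⟨x, y, hx, hy, hxy, e⟩
    have ev : ∀ g, x * (φ g).re + y * (ψ g).re = (tau r g).re := by
      intro g
      have := congrArg Complex.re (congrFun e g)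
      simpa using this
    have k1 : ∀ k, p r k = 1 → (φ k).re = 1 ∧ (ψ k).re = 1 := by
      intro k hk
      have a := ev k
      have b := re_le hφ.1 hφ.2.1 k
      have c := re_le hψ.1 hψ.2.1 k
      unfold tau at a
      rw [if_pos hk, Complex.one_re] at a
      constructor <;> nlinarith
    obtain ⟨A, a1, a2⟩ := struct z φ hφ fun k hk => (k1 k hk).1
    obtain ⟨-, b1, -⟩ := struct z ψ hψ fun k hk => (k1 k hk).2
    have a := ev (FreeGroup.of z)
    rw [tz, Complex.ofReal_re] at a
    have hM : (2 : ℝ) ^ r - 1 ≠ 0 := by linarith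
    have s : x * (1 + ((2 : ℝ) ^ r - 1) * (φ (FreeGroup.of z)).re) +
        y * (1 + ((2 : ℝ) ^ r - 1) * (ψ (FreeGroup.of z)).re) = 0 := by
      have : ((2 : ℝ) ^ r - 1) * (1 / ((2 : ℝ) ^ r - 1)) = 1 := by field_simp
      linear_combination hxy + ((2 : ℝ) ^ r - 1) * a - this
    have t : 1 + ((2 : ℝ) ^ r - 1) * (φ (FreeGroup.of z)).re = 0 := by
      have := mul_nonneg hy.le b1
      have h3 : x * (1 + ((2 : ℝ) ^ r - 1) * (φ (FreeGroup.of z)).re) ≤ 0 := by linarith
      exact le_antisymm (nonpos_of_mul_nonpos_right h3 hx) a1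
    have u : φ (FreeGroup.of z) = ((-(1 / ((2 : ℝ) ^ r - 1)) : ℝ) : ℂ) := by
      apply Complex.ext
      · rw [Complex.ofReal_re]; field_simp; linarith
      · rw [Complex.ofReal_im, a2]
    funext g
    rw [A g, u]
    unfold tau
    congr
  · intro h
    have := congrArg Complex.re (congrFun h (FreeGroup.of z))
    rw [tz, Complex.ofReal_re, Complex.one_re] at this
    linarith
  · rw [tz]
    exact_mod_cast (neg_neg_of_pos hb).ne

end Pool.Agent.Results.MP_4640da_an.Yes
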